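import Pool.Agent.U337.EM.Stm

/-!
Project EM, package A: derivations of the enveloping algebra.
-/

set_option autoImplicit false

namespace Pool.Agent.U608.EM.A

open Pool.Agent.U337.EM

attribute [local instance 100] LieRing.ofAssociativeRing

variable {F : Type} [Field F] {L : Type} [LieRing L] [LieAlgebra F L]

/-- a subalgebra which contains `L` is everything -/
lemma sub_top (S : Subalgebra F (UniversalEnvelopingAlgebra F L))
    (h : ∀ x : L, UniversalEnvelopingAlgebra.ι F x ∈ S) (u : UniversalEnvelopingAlgebra F L) :
    u ∈ S := by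
  let f : L →ₗ⁅F⁆ S :=
    { toFun := fun x => ⟨UniversalEnvelopingAlgebra.ι F x, h x⟩
      map_add' := fun x y => Subtype.ext (by simp)
      map_smul' := fun r x => Subtype.ext (by simp)
      map_lie' := fun {x y} => Subtype.ext (by simp [LieRing.of_associative_ring_bracket]) }
  let g := UniversalEnvelopingAlgebra.lift F f
  have hg : S.val.comp g = AlgHom.id F (UniversalEnvelopingAlgebra F L) := by
    apply UniversalEnvelopingAlgebra.hom_ext
    ext x
    change ((g (UniversalEnvelopingAlgebra.ι F x) : S) : UniversalEnvelopingAlgebra F L) =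
      UniversalEnvelopingAlgebra.ι F x
    have : g (UniversalEnvelopingAlgebra.ι F x) = f x := UniversalEnvelopingAlgebra.lift_ι_apply F f x
    rw [this]
    rfl
  have := congrArg (fun k => k u) hg
  have h2 : ((g u : S) : UniversalEnvelopingAlgebra F L) = u := this
  rw [← h2]
  exact (g u).2

section
variable {B N : Type} [CommRing B] [Algebra F B] [AddCommGroup N] [Module F N] [Module B N]
  [IsScalarTower F B N] (χ θ : UniversalEnvelopingAlgebra F L →ₐ[F] B)

lemma map_lie_zero (χ : UniversalEnvelopingAlgebra F L →ₐ[F] B) (x y : L) :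
    χ (UniversalEnvelopingAlgebra.ι F ⁅x, y⁆) = 0 := by
  rw [LieHom.map_lie, LieRing.of_associative_ring_bracket, map_sub, map_mul, map_mul, mul_comm,
    sub_self]

/-- the action of `L` -/
noncomputable def T (b : L →ₗ[F] N) (hb : ∀ x y, b ⁅x, y⁆ =
      (χ (UniversalEnvelopingAlgebra.ι F x) - θ (UniversalEnvelopingAlgebra.ι F x)) • b y -
      (χ (UniversalEnvelopingAlgebra.ι F y) - θ (UniversalEnvelopingAlgebra.ι F y)) • b x) :
    L →ₗ⁅F⁆ Module.End F (N × B) where
  toFun x :=
    { toFun := fun p => (χ (UniversalEnvelopingAlgebra.ι F x) • p.1 + p.2 • b x,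
        θ (UniversalEnvelopingAlgebra.ι F x) * p.2)
      map_add' := fun p q => by
        ext
        · simp only [Prod.fst_add, Prod.snd_add, smul_add, add_smul]
          abel
        · simp only [Prod.snd_add, mul_add]
      map_smul' := fun r p => by
        ext
        · simp only [Prod.smul_fst, Prod.smul_snd, RingHom.id_apply, smul_add, smul_assoc]
          rw [smul_comm]
        · simp only [Prod.smul_snd, RingHom.id_apply, mul_smul_comm] }
  map_add' x y := by
    ext p
    all_goals simp [add_smul, smul_add, add_mul]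
  map_smul' r x := by
    ext p
    all_goals (simp <;> exact smul_comm _ _ _)
  map_lie' {x y} := by
    apply LinearMap.ext
    rintro ⟨n, s⟩
    rw [LieRing.of_associative_ring_bracket]
    change ((χ (UniversalEnvelopingAlgebra.ι F ⁅x, y⁆) • n + s • b ⁅x, y⁆,
        θ (UniversalEnvelopingAlgebra.ι F ⁅x, y⁆) * s) : N × B) =
      (χ (UniversalEnvelopingAlgebra.ι F x) • (χ (UniversalEnvelopingAlgebra.ι F y) • n + s • b y) +
        (θ (UniversalEnvelopingAlgebra.ι F y) * s) • b x,
        θ (UniversalEnvelopingAlgebra.ι F x) * (θ (UniversalEnvelopingAlgebra.ι F y) * s)) -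
      (χ (UniversalEnvelopingAlgebra.ι F y) • (χ (UniversalEnvelopingAlgebra.ι F x) • n + s • b x) +
        (θ (UniversalEnvelopingAlgebra.ι F x) * s) • b y,
        θ (UniversalEnvelopingAlgebra.ι F y) * (θ (UniversalEnvelopingAlgebra.ι F x) * s))
    rw [map_lie_zero, map_lie_zero, hb, Prod.mk_sub_mk, Prod.mk.injEq]
    constructor
    · module
    · ring

theorem exist (b : L →ₗ[F] N) (hb : ∀ x y, b ⁅x, y⁆ =
      (χ (UniversalEnvelopingAlgebra.ι F x) - θ (UniversalEnvelopingAlgebra.ι F x)) • b y -
      (χ (UniversalEnvelopingAlgebra.ι F y) - θ (UniversalEnvelopingAlgebra.ι F y)) • b x) :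
    ∃ δ : UniversalEnvelopingAlgebra F L →ₗ[F] N, (∀ u v, δ (u * v) = χ u • δ v + θ v • δ u) ∧
      ∀ x, δ (UniversalEnvelopingAlgebra.ι F x) = b x := by
  set ρ : UniversalEnvelopingAlgebra F L →ₐ[F] Module.End F (N × B) :=
    UniversalEnvelopingAlgebra.lift F (T χ θ b hb) with hρ
  have hρι : ∀ (x : L) (p : N × B), ρ (UniversalEnvelopingAlgebra.ι F x) p =
      (χ (UniversalEnvelopingAlgebra.ι F x) • p.1 + p.2 • b x,
        θ (UniversalEnvelopingAlgebra.ι F x) * p.2) := by
    intro x p
    rw [hρ, UniversalEnvelopingAlgebra.lift_ι_apply]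
    rfl
  set δ : UniversalEnvelopingAlgebra F L →ₗ[F] N :=
    (LinearMap.fst F N B).comp ((LinearMap.applyₗ ((0 : N), (1 : B))).comp ρ.toLinearMap) with hδ
  have hδu : ∀ u, δ u = (ρ u ((0 : N), (1 : B))).1 := fun u => rfl
  -- the form of the action
  have key : ∀ u, ∀ (n : N) (s : B), ρ u (n, s) = (χ u • n + s • δ u, θ u * s) := by
    let S : Subalgebra F (UniversalEnvelopingAlgebra F L) :=
      { carrier := {u | ∀ (n : N) (s : B), ρ u (n, s) = (χ u • n + s • δ u, θ u * s)}
        mul_mem' := by
          intro u v hu hv n s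
          have hu' : ∀ (n : N) (s : B), ρ u (n, s) = (χ u • n + s • δ u, θ u * s) := hu
          have hv' : ∀ (n : N) (s : B), ρ v (n, s) = (χ v • n + s • δ v, θ v * s) := hv
          have e : δ (u * v) = χ u • δ v + θ v • δ u := by
            rw [hδu, map_mul, Module.End.mul_apply, hv', hu']
            simp
          rw [map_mul, Module.End.mul_apply, hv', hu', e, map_mul, map_mul, Prod.mk.injEq]
          constructor
          · module
          · ring
        add_mem' := by
          intro u v hu hv n s
          have hu' : ∀ (n : N) (s : B), ρ u (n, s) = (χ u • n + s • δ u, θ u * s) := hu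
          have hv' : ∀ (n : N) (s : B), ρ v (n, s) = (χ v • n + s • δ v, θ v * s) := hv
          rw [map_add, LinearMap.add_apply, hu', hv', map_add, map_add, map_add, Prod.mk_add_mk,
            Prod.mk.injEq]
          constructor
          · module
          · ring
        algebraMap_mem' := by
          intro r n s
          have e : δ (algebraMap F _ r) = 0 := by
            rw [hδu, AlgHom.commutes]
            simp [Module.algebraMap_end_apply]
          rw [e, AlgHom.commutes, AlgHom.commutes, AlgHom.commutes, Module.algebraMap_end_apply]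
          simp [Algebra.smul_def] }
    intro u
    refine sub_top S (fun x n s => ?_) u
    have e : δ (UniversalEnvelopingAlgebra.ι F x) = b x := by
      rw [hδu, hρι]
      simp
    rw [hρι, e]
  refine ⟨δ, fun u v => ?_, fun x => ?_⟩
  · rw [hδu, map_mul, Module.End.mul_apply, key v, key u]
    simp
  · rw [hδu, hρι]
    simp

end

theorem t_A : S_A := by
  intro F _ L _ _ B N _ _ _ _ _ _ χ θ
  refine ⟨fun b hb => exist χ θ b hb, fun δ δ' h h' hι => ?_⟩
  have one : ∀ δ : UniversalEnvelopingAlgebra F L →ₗ[F] N,
      (∀ u v, δ (u * v) = χ u • δ v + θ v • δ u) → δ 1 = 0 := by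
    intro δ h
    have := h 1 1
    rw [mul_one, map_one χ, map_one θ, one_smul] at this
    exact left_eq_add.1 this
  let S : Subalgebra F (UniversalEnvelopingAlgebra F L) :=
    { carrier := {u | δ u = δ' u}
      mul_mem' := by
        intro u v hu hv
        have hu' : δ u = δ' u := hu
        have hv' : δ v = δ' v := hv
        change δ (u * v) = δ' (u * v)
        rw [h, h', hu', hv']
      add_mem' := by
        intro u v hu hv
        have hu' : δ u = δ' u := hu
        have hv' : δ v = δ' v := hv
        change δ (u + v) = δ' (u + v)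
        rw [map_add, map_add, hu', hv']
      algebraMap_mem' := by
        intro r
        change δ (algebraMap F _ r) = δ' (algebraMap F _ r)
        rw [Algebra.algebraMap_eq_smul_one, map_smul, map_smul, one δ h, one δ' h'] }
  exact LinearMap.ext fun u => sub_top S hι u

end Pool.Agent.U608.EM.A
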